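import Pool.Agent.Helper40.JZ.Stmts

/-!
Two continuous levels: module MTR (the mass of a type as an average of correlations with
measure preserving maps; MP_7a8f48_an).
-/

open Finset Filter MeasureTheory Topology
open scoped ComplexConjugate InnerProductSpace

namespace Pool.Agent.Helper2.JZ

open Pool.Agent.Helper16.AZ (T E Op mm fc Ind)
open Pool.Agent.Helper40.DZ (RI UR SK Good3)
open Pool.Agent.Helper40.JZ
open UnitAddTorus (mFourier)

/-- the measure on the circle -/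
noncomputable abbrev hu : Measure U := AddCircle.haarAddCircle

theorem norm_four (b : ℤ) (t : U) : ‖(fourier b t : ℂ)‖ = 1 := by
  simp [fourier_apply]

theorem four_add (b : ℤ) (t t' : U) : (fourier b (t + t') : ℂ) = fourier b t * fourier b t' := by
  rw [fourier_apply, fourier_apply, fourier_apply, smul_add, AddCircle.toCircle_add,
    Circle.coe_mul]

theorem four_sum (n : ℕ) (hn : 1 ≤ n) (b : ℤ) :
    ∑ l ∈ range n, (fourier b (((l : ℝ) / (n : ℝ) : ℝ) : U) : ℂ) =
      if (n : ℤ) ∣ b then (n : ℂ) else 0 := by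
  have hn0 : (n : ℂ) ≠ 0 := by exact_mod_cast (by omega : n ≠ 0)
  obtain ⟨ζ, hζ⟩ : ∃ ζ : ℂ, ζ = Complex.exp (2 * Real.pi * Complex.I * (b : ℂ) / (n : ℂ)) :=
    ⟨_, rfl⟩
  have h1 : ∀ l : ℕ, (fourier b (((l : ℝ) / (n : ℝ) : ℝ) : U) : ℂ) = ζ ^ l := by
    intro l
    rw [fourier_coe_apply, hζ, ← Complex.exp_nat_mul]
    congr 1
    push_cast
    ring
  simp_rw [h1]
  have h2 : ζ ^ n = 1 := by
    rw [hζ, ← Complex.exp_nat_mul]
    rw [show (n : ℂ) * (2 * Real.pi * Complex.I * (b : ℂ) / (n : ℂ)) =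
      (b : ℂ) * (2 * Real.pi * Complex.I) by field_simp]
    exact Complex.exp_int_mul_two_pi_mul_I b
  by_cases hd : (n : ℤ) ∣ b
  · rw [if_pos hd]
    obtain ⟨m, hm⟩ := hd
    have h3 : ζ = 1 := by
      rw [hζ, hm]
      push_cast
      rw [show 2 * Real.pi * Complex.I * ((n : ℂ) * (m : ℂ)) / (n : ℂ) =
        (m : ℂ) * (2 * Real.pi * Complex.I) by field_simp]
      exact Complex.exp_int_mul_two_pi_mul_I m
    simp [h3]
  · rw [if_neg hd]
    have h3 : ζ ≠ 1 := by
      intro h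
      rw [hζ, Complex.exp_eq_one_iff] at h
      obtain ⟨m, hm⟩ := h
      apply hd
      have h4 : (b : ℂ) = (n : ℂ) * (m : ℂ) := by
        have h5 : (2 * Real.pi * Complex.I : ℂ) ≠ 0 := Complex.two_pi_I_ne_zero
        have h6 : 2 * Real.pi * Complex.I * (b : ℂ) = (n : ℂ) * ((m : ℂ) *
            (2 * Real.pi * Complex.I)) := by
          rw [← hm]
          field_simp
        have h7 : (2 * Real.pi * Complex.I : ℂ) * ((b : ℂ) - (n : ℂ) * (m : ℂ)) = 0 := by
          linear_combination h6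
        rcases mul_eq_zero.mp h7 with h8 | h8
        · exact absurd h8 h5
        · linear_combination h8
      exact ⟨m, by exact_mod_cast h4⟩
    have h4 : (∑ l ∈ range n, ζ ^ l) * (ζ - 1) = ζ ^ n - 1 := geom_sum_mul ζ n
    rw [h2, sub_self] at h4
    rcases mul_eq_zero.mp h4 with h5 | h5
    · exact h5
    · exact absurd (sub_eq_zero.mp h5) h3

variable {r : ℕ}

theorem meas_ini : Measurable (ini : T (r + 1) → T r) := continuous_ini.measurable

theorem meas_las : Measurable (las : T (r + 1) → U) := continuous_las.measurable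

theorem meas_sn : Measurable (fun z : T r × U => sn z.1 z.2) := continuous_sn.measurable

theorem mp_pr (hF : ST_FIB) : MeasurePreserving (fun y : T (r + 1) => (ini y, las y))
    (mm (r + 1)) ((mm r).prod hu) := by
  have h1 := (hF r).1
  refine ⟨meas_ini.prodMk meas_las, ?_⟩
  rw [← h1.map_eq, Measure.map_map (meas_ini.prodMk meas_las) meas_sn]
  have h2 : (fun y : T (r + 1) => (ini y, las y)) ∘ (fun z : T r × U => sn z.1 z.2) = id := by
    funext z
    simp
  rw [h2, Measure.map_id]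

theorem mp_tr (s : T r) : MeasurePreserving (fun x : T r => x + s) (mm r) (mm r) :=
  measurePreserving_add_right (mm r) s

/-- skew products over translations preserve the measure -/
theorem mp_SA (hF : ST_FIB) (s : T r) {f : T r → U} (hf : Measurable f) :
    MeasurePreserving (SA s f) (mm (r + 1)) (mm (r + 1)) := by
  have h1 : MeasurePreserving (fun z : T r × U => (z.1 + s, z.2 + f z.1))
      ((mm r).prod hu) ((mm r).prod hu) := by
    refine MeasurePreserving.skew_product (g := fun x k => k + f x) (mp_tr s) ?_ ?_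
    · exact measurable_snd.add (hf.comp measurable_fst)
    · refine Eventually.of_forall fun x => ?_
      exact (measurePreserving_add_right hu (f x)).map_eq
  have h2 := (hF r).1.comp (h1.comp (mp_pr hF))
  exact h2

/-! ### Fourier coefficients in the last coordinate -/

theorem memLp_sn (hF : ST_FIB) {G : T (r + 1) → ℂ} (hG : MemLp G 2 (mm (r + 1))) :
    MemLp (fun z : T r × U => G (sn z.1 z.2)) 2 ((mm r).prod hu) :=
  hG.comp_measurePreserving (hF r).1

theorem int_sn (hF : ST_FIB) {G : T (r + 1) → ℂ} (hG : MemLp G 2 (mm (r + 1))) :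
    ∀ᵐ x ∂(mm r), Integrable (fun k : U => G (sn x k)) hu :=
  ((memLp_sn hF hG).integrable (by norm_num)).prod_right_ae

theorem four_int (b : ℤ) {h : U → ℂ} (hh : Integrable h hu) :
    Integrable (fun k => (fourier b k : ℂ) * h k) hu := by
  refine hh.bdd_mul (c := 1) (fourier b).continuous.aestronglyMeasurable ?_
  exact Eventually.of_forall fun k => (norm_four b k).le

theorem fib_add (hF : ST_FIB) {G G' : T (r + 1) → ℂ} (hG : MemLp G 2 (mm (r + 1)))
    (hG' : MemLp G' 2 (mm (r + 1))) (c : ℂ) (b : ℤ) :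
    ∀ᵐ x ∂(mm r), fib (fun y => G y + c * G' y) b x = fib G b x + c * fib G' b x := by
  filter_upwards [int_sn hF hG, int_sn hF hG'] with x h1 h2
  have h3 : ∀ k : U, (fourier (-b) k : ℂ) * (G (sn x k) + c * G' (sn x k)) =
      fourier (-b) k * G (sn x k) + c * (fourier (-b) k * G' (sn x k)) := fun k => by ring
  show ∫ k, (fourier (-b) k : ℂ) * (G (sn x k) + c * G' (sn x k)) ∂hu = _
  simp_rw [h3]
  rw [integral_add (four_int (-b) h1) ((four_int (-b) h2).const_mul c), integral_const_mul]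
  rfl

theorem l2_mul {X : Type} [MeasurableSpace X] {m : Measure X} {g g' : X → ℂ}
    (hg : MemLp g 2 m) (hg' : MemLp g' 2 m) : Integrable (fun x => g x * conj (g' x)) m := by
  have h1 : MemLp (fun x => conj (g' x)) 2 m := hg'.star
  exact hg.integrable_mul h1

theorem l2_sq {X : Type} [MeasurableSpace X] {m : Measure X} {g : X → ℂ}
    (hg : MemLp g 2 m) : Integrable (fun x => ‖g x‖ ^ 2) m :=
  hg.integrable_norm_pow (by norm_num)

theorem pol_pt (u v : ℂ) : u * conj v = (1 / 4 : ℂ) * (((‖u + 1 * v‖ ^ 2 : ℝ) : ℂ) -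
    ((‖u + (-1) * v‖ ^ 2 : ℝ) : ℂ) + Complex.I * ((‖u + Complex.I * v‖ ^ 2 : ℝ) : ℂ) -
    Complex.I * ((‖u + (-Complex.I) * v‖ ^ 2 : ℝ) : ℂ)) := by
  have h : ∀ w : ℂ, ((‖w‖ ^ 2 : ℝ) : ℂ) = w * conj w := fun w => by
    rw [Complex.mul_conj, Complex.normSq_eq_norm_sq]
  rw [h, h, h, h]
  simp only [map_add, map_mul, map_neg, map_one, Complex.conj_I]
  ring_nf
  rw [Complex.I_sq]
  ring

/-- polarization in an integral -/
theorem pol_int {X : Type} [MeasurableSpace X] {m : Measure X} {g g' : X → ℂ}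
    (hg : MemLp g 2 m) (hg' : MemLp g' 2 m) : ∫ x, g x * conj (g' x) ∂m =
    (1 / 4 : ℂ) * (((∫ x, ‖g x + 1 * g' x‖ ^ 2 ∂m : ℝ) : ℂ) -
    ((∫ x, ‖g x + (-1) * g' x‖ ^ 2 ∂m : ℝ) : ℂ) +
    Complex.I * ((∫ x, ‖g x + Complex.I * g' x‖ ^ 2 ∂m : ℝ) : ℂ) -
    Complex.I * ((∫ x, ‖g x + (-Complex.I) * g' x‖ ^ 2 ∂m : ℝ) : ℂ)) := by
  have hi : ∀ c : ℂ, Integrable (fun x => ((‖g x + c * g' x‖ ^ 2 : ℝ) : ℂ)) m := fun c =>
    (l2_sq (hg.add (hg'.const_mul c))).ofReal
  simp_rw [pol_pt]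
  simp only [← integral_complex_ofReal]
  rw [integral_const_mul, integral_sub, integral_add, integral_sub, integral_const_mul,
    integral_const_mul]
  · exact hi 1
  · exact hi (-1)
  · exact (hi 1).sub (hi (-1))
  · exact (hi Complex.I).const_mul _
  · exact ((hi 1).sub (hi (-1))).add ((hi Complex.I).const_mul _)
  · exact (hi (-Complex.I)).const_mul _

/-- Parseval's formula for two functions -/
theorem pars (hF : ST_FIB) {G G' : T (r + 1) → ℂ} (hG : MemLp G 2 (mm (r + 1)))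
    (hG' : MemLp G' 2 (mm (r + 1))) :
    HasSum (fun b : ℤ => ∫ x, fib G b x * conj (fib G' b x) ∂(mm r))
      (∫ y, G y * conj (G' y) ∂(mm (r + 1))) := by
  have hc : ∀ c : ℂ, HasSum (fun b : ℤ =>
      ((∫ x, ‖fib G b x + c * fib G' b x‖ ^ 2 ∂(mm r) : ℝ) : ℂ))
      ((∫ y, ‖G y + c * G' y‖ ^ 2 ∂(mm (r + 1)) : ℝ) : ℂ) := by
    intro c
    have h1 := ((hF r).2 (fun y => G y + c * G' y) (hG.add (hG'.const_mul c))).2.1
    have h3 : (fun b : ℤ => ∫ x, ‖fib (fun y => G y + c * G' y) b x‖ ^ 2 ∂(mm r)) =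
        fun b : ℤ => ∫ x, ‖fib G b x + c * fib G' b x‖ ^ 2 ∂(mm r) := by
      funext b
      refine integral_congr_ae ?_
      filter_upwards [fib_add hF hG hG' c b] with x hx
      rw [hx]
    rw [h3] at h1
    exact Complex.hasSum_ofReal.mpr h1
  rw [pol_int hG hG']
  have h2 : (fun b : ℤ => ∫ x, fib G b x * conj (fib G' b x) ∂(mm r)) = fun b : ℤ =>
      (1 / 4 : ℂ) * (((∫ x, ‖fib G b x + 1 * fib G' b x‖ ^ 2 ∂(mm r) : ℝ) : ℂ) -
      ((∫ x, ‖fib G b x + (-1) * fib G' b x‖ ^ 2 ∂(mm r) : ℝ) : ℂ) +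
      Complex.I * ((∫ x, ‖fib G b x + Complex.I * fib G' b x‖ ^ 2 ∂(mm r) : ℝ) : ℂ) -
      Complex.I * ((∫ x, ‖fib G b x + (-Complex.I) * fib G' b x‖ ^ 2 ∂(mm r) : ℝ) : ℂ)) := by
    funext b
    exact pol_int (((hF r).2 G hG).1 b) (((hF r).2 G' hG').1 b)
  rw [h2]
  exact (((((hc 1).sub (hc (-1))).add ((hc Complex.I).mul_left _)).sub
    ((hc (-Complex.I)).mul_left _))).mul_left _

/-! ### the projection -/

variable {θ : T r} {f : T r → U} {q : ℕ} {a : ℤ} {D : T r → T r → U}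

theorem four_mp (j : ℤ) {u : T r → U} (hu' : Measurable u) {g : T r → ℂ}
    (hg : MemLp g 2 (mm r)) : MemLp (fun x => (fourier j (u x) : ℂ) * g x) 2 (mm r) := by
  have h1 : AEStronglyMeasurable (fun x => (fourier j (u x) : ℂ)) (mm r) :=
    ((fourier j).continuous.measurable.comp hu').aestronglyMeasurable
  refine MemLp.of_le_mul (c := 1) hg (h1.mul hg.1) (Eventually.of_forall fun x => ?_)
  rw [norm_mul, norm_four, one_mul]

theorem tr_mp {g : T r → ℂ} (hg : MemLp g 2 (mm r)) (s : T r) :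
    MemLp (fun x => g (x + s)) 2 (mm r) := hg.comp_measurePreserving (mp_tr s)

theorem tr_int (F : T r → ℂ) (s : T r) : ∫ x, F (x + s) ∂(mm r) = ∫ x, F x ∂(mm r) :=
  integral_add_right_eq_self F s

theorem term_mp (hL : Lift θ f q a D) (j : ℤ) {g : T r → ℂ} (hg : MemLp g 2 (mm r)) {s : T r}
    (hs : s ∈ tor r q) : MemLp (fun x => (fourier j (D s x) : ℂ) * g (x + s)) 2 (mm r) :=
  four_mp j (hL.1 s hs) (tr_mp hg s)

/-- `pj` is a self adjoint projection -/
theorem ms_eq (hT : ST_TOR) (hq : 1 ≤ q) (hL : Lift θ f q a D) (j : ℤ) {g : T r → ℂ}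
    (hg : MemLp g 2 (mm r)) :
    ((ms q D j g : ℝ) : ℂ) = ∫ x, pj q D j g x * conj (g x) ∂(mm r) := by
  have hqn : ((q : ℂ) ^ r) ≠ 0 := pow_ne_zero _ (by exact_mod_cast (by omega : q ≠ 0))
  obtain ⟨-, hcard, hsh, -, -⟩ := hT r q hq
  -- the integral of a pair
  obtain ⟨I, hI⟩ : ∃ I : T r → ℂ, ∀ s, I s =
      ∫ x, (fourier j (D s x) : ℂ) * g (x + s) * conj (g x) ∂(mm r) := ⟨_, fun _ => rfl⟩
  have h1 : ∫ x, pj q D j g x * conj (g x) ∂(mm r) = (∑ s ∈ tor r q, I s) / (q : ℂ) ^ r := by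
    have e1 : ∀ x, pj q D j g x * conj (g x) =
        (∑ s ∈ tor r q, (fourier j (D s x) : ℂ) * g (x + s) * conj (g x)) / (q : ℂ) ^ r := by
      intro x
      simp only [pj]
      rw [div_mul_eq_mul_div, Finset.sum_mul]
    simp_rw [e1]
    rw [integral_div, integral_finset_sum]
    · simp_rw [hI]
    · intro s hs
      exact l2_mul (term_mp hL j hg hs) hg
  have h2 : ∀ s' ∈ tor r q, ∀ s ∈ tor r q,
      ∫ x, (fourier j (D (s + s') x) : ℂ) * g (x + (s + s')) *
        conj ((fourier j (D s' x) : ℂ) * g (x + s')) ∂(mm r) = I s := by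
    intro s' hs' s hs
    rw [hI, ← tr_int (fun x => (fourier j (D s x) : ℂ) * g (x + s) * conj (g x)) s']
    refine integral_congr_ae ?_
    filter_upwards [hL.2.1 s hs s' hs'] with x hx
    rw [hx, map_mul, four_add]
    have e2 : (fourier j (D s' x) : ℂ) * conj (fourier j (D s' x) : ℂ) = 1 := by
      rw [Complex.mul_conj, Complex.normSq_eq_norm_sq, norm_four]
      norm_num
    rw [show x + (s + s') = x + s' + s by abel]
    linear_combination ((fourier j (D s (x + s')) : ℂ) * g (x + s' + s) * conj (g (x + s'))) * e2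
  have h3 : ((ms q D j g : ℝ) : ℂ) = (∑ s' ∈ tor r q, ∑ s ∈ tor r q,
      ∫ x, (fourier j (D s x) : ℂ) * g (x + s) *
        conj ((fourier j (D s' x) : ℂ) * g (x + s')) ∂(mm r)) / ((q : ℂ) ^ r * (q : ℂ) ^ r) := by
    have e3 : ∀ x, ((‖pj q D j g x‖ ^ 2 : ℝ) : ℂ) = (∑ s' ∈ tor r q, ∑ s ∈ tor r q,
        (fourier j (D s x) : ℂ) * g (x + s) *
        conj ((fourier j (D s' x) : ℂ) * g (x + s'))) / ((q : ℂ) ^ r * (q : ℂ) ^ r) := by
      intro x
      rw [← Complex.normSq_eq_norm_sq, ← Complex.mul_conj]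
      simp only [pj]
      rw [map_div₀, map_pow, Complex.conj_natCast, div_mul_div_comm, map_sum, Finset.sum_mul_sum,
        Finset.sum_comm]
    rw [ms, ← integral_complex_ofReal]
    simp_rw [e3]
    rw [integral_div, integral_finset_sum]
    · congr 1
      refine Finset.sum_congr rfl fun s' hs' => ?_
      rw [integral_finset_sum]
      intro s hs
      exact l2_mul (term_mp hL j hg hs) (term_mp hL j hg hs')
    · intro s' hs'
      exact integrable_finset_sum _ fun s hs =>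
        l2_mul (term_mp hL j hg hs) (term_mp hL j hg hs')
  rw [h3, h1]
  have h4 : ∀ s' ∈ tor r q, ∑ s ∈ tor r q,
      ∫ x, (fourier j (D s x) : ℂ) * g (x + s) *
        conj ((fourier j (D s' x) : ℂ) * g (x + s')) ∂(mm r) = ∑ s ∈ tor r q, I s := by
    intro s' hs'
    rw [← hsh s' hs' fun s => ∫ x, (fourier j (D s x) : ℂ) * g (x + s) *
        conj ((fourier j (D s' x) : ℂ) * g (x + s')) ∂(mm r)]
    exact Finset.sum_congr rfl fun s hs => h2 s' hs' s hs
  rw [Finset.sum_congr rfl h4, Finset.sum_const, hcard, nsmul_eq_mul]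
  push_cast
  field_simp

/-! ### the module -/

theorem div_lem {a : ℤ} (b : ℤ) : ((a.natAbs : ℤ) ∣ b) ↔ ∃ j : ℤ, j * a = b := by
  rw [Int.natAbs_dvd]
  constructor
  · rintro ⟨j, rfl⟩
    exact ⟨j, mul_comm _ _⟩
  · rintro ⟨j, rfl⟩
    exact dvd_mul_left _ _

theorem four_rho {ρ : U → U} (hρ : ∀ t, a • ρ t = t) (j : ℤ) (t : U) :
    (fourier (j * a) (ρ t) : ℂ) = fourier j t := by
  rw [fourier_apply, fourier_apply, mul_smul, hρ]

theorem st_MTR (hT : ST_TOR) (hF : ST_FIB) (_hM : ST_MSF) : ST_MTR := by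
  intro r θ f q a D ρ G hq ha hL hρm hρ hG
  have hG2 : MemLp G 2 (mm (r + 1)) := hG.memLp 2
  have han : 1 ≤ a.natAbs := Int.natAbs_pos.mpr ha
  have hqn : ((q : ℂ) ^ r) ≠ 0 := pow_ne_zero _ (by exact_mod_cast (by omega : q ≠ 0))
  have hann : ((a.natAbs : ℕ) : ℂ) ≠ 0 := by exact_mod_cast (by omega : a.natAbs ≠ 0)
  have hfm := ((hF r).2 G hG2).1
  -- the maps
  obtain ⟨κ, hκ⟩ : ∃ κ : T r → ℕ → T r → U, ∀ s l x, κ s l x =
      ρ (D s x) + (((l : ℝ) / (a.natAbs : ℝ) : ℝ) : U) := ⟨_, fun _ _ _ => rfl⟩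
  have hκm : ∀ s ∈ tor r q, ∀ l, Measurable (κ s l) := by
    intro s hs l
    have : κ s l = fun x => ρ (D s x) + (((l : ℝ) / (a.natAbs : ℝ) : ℝ) : U) := by
      funext x
      exact hκ s l x
    rw [this]
    exact (hρm.comp (hL.1 s hs)).add_const _
  -- Parseval for one map
  have h1 : ∀ s ∈ tor r q, ∀ l, HasSum (fun b : ℤ => ∫ x, (fourier b (κ s l x) : ℂ) *
      fib G b (x + s) * conj (fib G b x) ∂(mm r))
      (∫ y, G (sn (ini y + s) (las y + κ s l (ini y))) * conj (G y) ∂(mm (r + 1))) := by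
    intro s hs l
    have h2 : MemLp (fun y => G (SA s (κ s l) y)) 2 (mm (r + 1)) :=
      hG2.comp_measurePreserving (mp_SA hF s (hκm s hs l))
    have h3 := pars hF h2 hG2
    have h4 : (fun b : ℤ => ∫ x, fib (fun y => G (SA s (κ s l) y)) b x * conj (fib G b x) ∂(mm r)) =
        fun b : ℤ => ∫ x, (fourier b (κ s l x) : ℂ) * fib G b (x + s) * conj (fib G b x)
          ∂(mm r) := by
      funext b
      refine integral_congr_ae ?_
      filter_upwards [((hF r).2 G hG2).2.2.2 s (κ s l) (hκm s hs l) b] with x hx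
      rw [hx]
    rw [h4] at h3
    exact h3
  -- the sum
  have h5 := hasSum_sum (s := tor r q ×ˢ range a.natAbs) fun z hz =>
    h1 z.1 (Finset.mem_product.mp hz).1 z.2
  have h6 : ∀ b : ℤ, ∑ z ∈ tor r q ×ˢ range a.natAbs, ∫ x, (fourier b (κ z.1 z.2 x) : ℂ) *
      fib G b (x + z.1) * conj (fib G b x) ∂(mm r) =
      ∑ s ∈ tor r q, ((if (a.natAbs : ℤ) ∣ b then ((a.natAbs : ℕ) : ℂ) else 0) *
        ∫ x, (fourier b (ρ (D s x)) : ℂ) * fib G b (x + s) * conj (fib G b x) ∂(mm r)) := by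
    intro b
    rw [Finset.sum_product]
    refine Finset.sum_congr rfl fun s _ => ?_
    have e1 : ∀ l x, (fourier b (κ s l x) : ℂ) * fib G b (x + s) * conj (fib G b x) =
        (fourier b (((l : ℝ) / (a.natAbs : ℝ) : ℝ) : U) : ℂ) *
        ((fourier b (ρ (D s x)) : ℂ) * fib G b (x + s) * conj (fib G b x)) := by
      intro l x
      rw [hκ, four_add]
      ring
    simp_rw [e1, integral_const_mul]
    rw [← Finset.sum_mul, four_sum _ han]
  have h7 : ∀ j : ℤ, ∑ s ∈ tor r q, ((if (a.natAbs : ℤ) ∣ (j * a) then ((a.natAbs : ℕ) : ℂ) else 0) *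
        ∫ x, (fourier (j * a) (ρ (D s x)) : ℂ) * fib G (j * a) (x + s) *
          conj (fib G (j * a) x) ∂(mm r)) =
      ((q : ℂ) ^ r * ((a.natAbs : ℕ) : ℂ)) * ((ms q D j (fib G (j * a)) : ℝ) : ℂ) := by
    intro j
    rw [if_pos ((div_lem (j * a)).mpr ⟨j, rfl⟩), ← Finset.mul_sum,
      ms_eq hT hq hL j (hfm (j * a))]
    simp_rw [four_rho hρ]
    have e2 : ∀ x, pj q D j (fib G (j * a)) x * conj (fib G (j * a) x) =
        (∑ s ∈ tor r q, (fourier j (D s x) : ℂ) * fib G (j * a) (x + s) *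
          conj (fib G (j * a) x)) / (q : ℂ) ^ r := by
      intro x
      simp only [pj]
      rw [div_mul_eq_mul_div, Finset.sum_mul]
    simp_rw [e2]
    rw [integral_div, integral_finset_sum]
    · field_simp
    · intro s hs
      exact l2_mul (term_mp hL j (hfm (j * a)) hs) (hfm (j * a))
  obtain ⟨B, hB⟩ : ∃ B : ℤ → ℂ, B = fun b : ℤ => ∑ s ∈ tor r q,
      ((if (a.natAbs : ℤ) ∣ b then ((a.natAbs : ℕ) : ℂ) else 0) *
        ∫ x, (fourier b (ρ (D s x)) : ℂ) * fib G b (x + s) * conj (fib G b x) ∂(mm r)) :=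
    ⟨_, rfl⟩
  have h8 : HasSum B (∑ z ∈ tor r q ×ˢ range a.natAbs,
      ∫ y, G (sn (ini y + z.1) (las y + κ z.1 z.2 (ini y))) * conj (G y) ∂(mm (r + 1))) := by
    rw [hB]
    refine (congrArg (fun F : ℤ → ℂ => HasSum F _) ?_).mp h5
    funext b
    exact h6 b
  have h9 : ∑' j : ℤ, B (j * a) = ∑' b : ℤ, B b := by
    refine Function.Injective.tsum_eq (g := fun j : ℤ => j * a) ?_ ?_
    · intro i j hij
      exact mul_right_cancel₀ ha hij
    · intro b hb
      by_contra hc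
      apply hb
      have h10 : ¬ (a.natAbs : ℤ) ∣ b := by
        intro h
        obtain ⟨j, hj⟩ := (div_lem b).mp h
        exact hc ⟨j, hj⟩
      rw [hB]
      simp only [if_neg h10, zero_mul, Finset.sum_const_zero]
  have h10 : ∀ j : ℤ, B (j * a) =
      ((q : ℂ) ^ r * ((a.natAbs : ℕ) : ℂ)) * ((ms q D j (fib G (j * a)) : ℝ) : ℂ) := by
    intro j
    rw [hB]
    exact h7 j
  rw [h8.tsum_eq] at h9
  simp_rw [h10] at h9
  rw [tsum_mul_left, ← Complex.ofReal_tsum] at h9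
  have h11 : NT q (some (a, D)) G = ∑' j : ℤ, ms q D j (fib G (j * a)) := rfl
  rw [h11, eq_div_iff (mul_ne_zero hqn hann), mul_comm, h9, Finset.sum_product]
  refine Finset.sum_congr rfl fun s _ => Finset.sum_congr rfl fun l _ => ?_
  simp_rw [hκ]

end Pool.Agent.Helper2.JZ

namespace Pool.Agent.Helper40.JZ

theorem st_MTR : ST_TOR → ST_FIB → ST_MSF → ST_MTR := Pool.Agent.Helper2.JZ.st_MTR

end Pool.Agent.Helper40.JZ
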