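import Pool.Agent.Helper2.JZ.MTR
import Pool.Agent.Helper62.DZ.PAR
import Pool.Agent.Helper95.DZ.RIXS

/-!
Two continuous levels: module RES (bound for all correlations of the powers `p` and `q`;
MP_7a8f48_an).
-/

open Finset Filter MeasureTheory Topology
open scoped ComplexConjugate InnerProductSpace

namespace Pool.Agent.Helper2.JZ

open Pool.Agent.Helper16.AZ (T E Op mm fc Ind)
open Pool.Agent.Helper16.BZ (EQ)
open Pool.Agent.Helper40.DZ (RI UR SK Good3 par_app par_apx ST_RIS ST_EQR)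
open Pool.Agent.Helper40.JZ
open UnitAddTorus (mFourier)

theorem four_orth (a b : ℤ) :
    ∫ k, (fourier (-a) k : ℂ) * fourier b k ∂hu = if a = b then 1 else 0 := by
  have h := (orthonormal_iff_ite.1 (orthonormal_fourier (T := 1))) a b
  rw [ContinuousMap.inner_toLp] at h
  rw [← h]
  refine integral_congr_ae (Eventually.of_forall fun θ => ?_)
  simp only
  rw [fourier_neg, mul_comm]

variable {r : ℕ}

/-- functions with finitely many Fourier coefficients in the last coordinate -/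
noncomputable def tp (A : Finset ℤ) (g : ℤ → T r → ℂ) (y : T (r + 1)) : ℂ :=
  ∑ a ∈ A, g a (ini y) * fourier a (las y)

theorem tp_cont {A : Finset ℤ} {g : ℤ → T r → ℂ} (hg : ∀ a, Continuous (g a)) :
    Continuous (tp A g) := by
  unfold tp
  exact continuous_finsetSum _ fun a _ =>
    ((hg a).comp continuous_ini).mul ((fourier a).continuous.comp continuous_las)

theorem fib_tp {A : Finset ℤ} {g : ℤ → T r → ℂ} (hg0 : ∀ a, a ∉ A → ∀ x, g a x = 0) (a : ℤ)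
    (x : T r) : fib (tp A g) a x = g a x := by
  unfold fib tp
  simp only [ini_sn, las_sn]
  have e1 : ∀ k : U, (fourier (-a) k : ℂ) * ∑ b ∈ A, g b x * fourier b k =
      ∑ b ∈ A, g b x * ((fourier (-a) k : ℂ) * fourier b k) := by
    intro k
    rw [Finset.mul_sum]
    refine Finset.sum_congr rfl fun b _ => ?_
    ring
  simp only [e1]
  rw [integral_finsetSum]
  · simp only [integral_const_mul, four_orth, mul_ite, mul_one, mul_zero]
    rw [Finset.sum_ite_eq]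
    split_ifs with h
    · rfl
    · exact (hg0 a h x).symm
  · intro b _
    refine Integrable.const_mul ?_ _
    exact ((fourier (-a)).continuous.mul (fourier b).continuous).integrable_of_hasCompactSupport
      (HasCompactSupport.of_compactSpace _)

theorem mf_split (X : Fin (r + 1) → ℤ) (y : T (r + 1)) : mFourier X y =
    mFourier (fun i : Fin r => X i.castSucc) (ini y) * fourier (X (Fin.last r)) (las y) := by
  simp only [mFourier, ContinuousMap.coe_mk, Fin.prod_univ_castSucc]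
  rfl

/-- trigonometric polynomials are of this form -/
theorem tp_of (c : (Fin (r + 1) → ℤ) →₀ ℂ) : ∃ (A : Finset ℤ) (g : ℤ → T r → ℂ), (0 : ℤ) ∈ A ∧
    (∀ a, Continuous (g a)) ∧ (∀ a, a ∉ A → ∀ x, g a x = 0) ∧
    ∀ y, ∑ X ∈ c.support, c X * mFourier X y = tp A g y := by
  refine ⟨insert 0 (c.support.image fun X => X (Fin.last r)), fun a x =>
    ∑ X ∈ c.support with X (Fin.last r) = a, c X * mFourier (fun i : Fin r => X i.castSucc) x,
    Finset.mem_insert_self _ _, fun a => ?_, fun a ha x => ?_, fun y => ?_⟩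
  · exact continuous_finsetSum _ fun X _ => continuous_const.mul (mFourier _).continuous
  · refine Finset.sum_eq_zero fun X hX => ?_
    exfalso
    apply ha
    rw [Finset.mem_filter] at hX
    rw [← hX.2]
    exact Finset.mem_insert_of_mem (Finset.mem_image_of_mem _ hX.1)
  · unfold tp
    rw [← Finset.sum_fiberwise_of_maps_to (g := fun X : Fin (r + 1) → ℤ => X (Fin.last r))
      (t := insert 0 (c.support.image fun X => X (Fin.last r)))]
    · refine Finset.sum_congr rfl fun a _ => ?_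
      rw [Finset.sum_mul]
      refine Finset.sum_congr rfl fun X hX => ?_
      rw [Finset.mem_filter] at hX
      rw [mf_split, hX.2, mul_assoc]
    · intro X hX
      exact Finset.mem_insert_of_mem (Finset.mem_image_of_mem _ hX)

theorem ms_nonneg (q : ℕ) (D : T r → T r → U) (j : ℤ) (g : T r → ℂ) : 0 ≤ ms q D j g :=
  integral_nonneg fun _ => by positivity

theorem ms_zero (q : ℕ) (D : T r → T r → U) (g : T r → ℂ) :
    ms q D 0 g = ms q (fun _ _ => 0) 0 g := by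
  simp [ms, pj]

/-! ### transfer functions -/

theorem zsmul_meas {u : T r → U} (hu : Measurable u) (j : ℤ) : Measurable fun z => j • u z :=
  (continuous_zsmul j).measurable.comp hu

theorem nsmul_meas {u : T r → U} (hu : Measurable u) (j : ℕ) : Measurable fun z => j • u z :=
  (continuous_nsmul j).measurable.comp hu

theorem Rs_zsmul {θ : T r} {f : T r → U} {p q : ℕ} {x₀ : T r} {a b : ℤ} {u : T r → U}
    (h : Rs θ f p q x₀ a b u) (j : ℤ) :
    Rs θ f p q x₀ (j * a) (j * b) (fun z => j • u z) := by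
  refine ⟨zsmul_meas h.1 j, ?_⟩
  filter_upwards [h.2] with z hz
  have := congrArg (fun v : U => j • v) hz
  simp only [smul_add, smul_smul] at this
  exact this

theorem Rs_symm {θ : T r} {f : T r → U} {p q : ℕ} {x₀ : T r} {a b : ℤ} {u : T r → U}
    (h : Rs θ f p q x₀ a b u) : Rs θ f q p x₀ b a (fun z => -u z) := by
  refine ⟨h.1.neg, ?_⟩
  filter_upwards [h.2] with z hz
  rw [← sub_eq_zero] at hz ⊢
  rw [← neg_eq_zero, ← hz]
  abel

theorem qc_iter {θ : T r} {f : T r → U} {A : ℤ} {w : T r → U} {c : U}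
    (h : ∀ᵐ x ∂(mm r), A • f x + w (x + θ) = c + w x) (n : ℕ) :
    ∀ᵐ x ∂(mm r), A • cs θ f n x + w (x + n • θ) = n • c + w x := by
  induction n with
  | zero => exact Eventually.of_forall fun x => by simp [cs_zero]
  | succ n ih =>
    have h1 := (measurePreserving_add_right (mm r) (n • θ)).quasiMeasurePreserving.ae h
    filter_upwards [ih, h1] with x e1 e2
    have e3 : x + (n + 1) • θ = x + n • θ + θ := by rw [succ_nsmul, add_assoc]
    rw [cs_succ, smul_add, e3, add_assoc, e2, add_left_comm, e1, succ_nsmul]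
    abel

theorem qc_res (mpz : ST_MPZ) {θ : T r} {f : T r → U} {A : ℤ} {w : T r → U} (h : Qc θ f A w)
    {p q : ℕ} (hp : 1 ≤ p) (hq : 1 ≤ q) (x₀ : T r) :
    Rs θ f p q x₀ (A * q) (A * p)
      (fun z => -(q • w (x₀ + p • z)) + p • w (x₀ + q • z)) := by
  obtain ⟨-, hw, c, h1⟩ := h
  have h4 := ((mpz r p hp).1 x₀).quasiMeasurePreserving.ae (qc_iter h1 p)
  have h5 := ((mpz r q hq).1 x₀).quasiMeasurePreserving.ae (qc_iter h1 q)
  refine ⟨?_, ?_⟩
  · exact ((nsmul_meas (hw.comp ((mpz r p hp).1 x₀).measurable) q).neg).add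
      (nsmul_meas (hw.comp ((mpz r q hq).1 x₀).measurable) p)
  filter_upwards [h4, h5] with z e1 e2
  have e3 : x₀ + p • (z + θ) = x₀ + p • z + p • θ := by rw [smul_add, add_assoc]
  have e4 : x₀ + q • (z + θ) = x₀ + q • z + q • θ := by rw [smul_add, add_assoc]
  rw [e3, e4]
  have e5 := congrArg (fun v : U => q • v) e1
  have e6 := congrArg (fun v : U => p • v) e2
  simp only [smul_add] at e5 e6
  have e7 : (A * (p : ℤ)) • cs θ f q (x₀ + q • z) = p • A • cs θ f q (x₀ + q • z) := by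
    rw [mul_comm, mul_smul, natCast_zsmul]
  have e8 : (A * (q : ℤ)) • cs θ f p (x₀ + p • z) = q • A • cs θ f p (x₀ + p • z) := by
    rw [mul_comm, mul_smul, natCast_zsmul]
  rw [e7, e8]
  have e9 : q • p • c = p • q • c := smul_comm _ _ _
  rw [e9] at e5
  rw [← sub_eq_zero] at e5 e6 ⊢
  rw [← sub_zero (_ - _), ← e6, ← e5.trans e6.symm]
  rw [e5, sub_zero]
  have e10 := congrArg₂ (fun v v' : U => v - v') e6 e5
  simp only [sub_zero] at e10
  rw [← e10]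
  abel

theorem cn_side (tor0 : ST_TOR) (mpz : ST_MPZ) {p q : ℕ} (hp : p.Prime) (hq : q.Prime)
    (hpq : p ≠ q) {j : ℤ} {D : T r → T r → U} {u₀ w : T r → U} {κ : U} (x₀ : T r)
    (hw : Measurable w) (hD : ∀ s ∈ tor r q, Measurable (D s))
    (h1 : ∀ s ∈ tor r q, ∀ᵐ z ∂(mm r), u₀ (z + s) = D (p • s) (x₀ + p • z) + u₀ z)
    (h2 : ∀ᵐ z ∂(mm r), j • u₀ z = κ + (-(q • w (x₀ + p • z)) + p • w (x₀ + q • z))) :
    ∀ s ∈ tor r q, ∀ᵐ x ∂(mm r), j • D s x = q • (w x - w (x + s)) := by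
  intro s hs
  obtain ⟨-, -, -, -, h5⟩ := tor0 r q hq.one_le
  obtain ⟨h6, -⟩ := tor0 r q hq.one_le
  obtain ⟨s', hs', hps⟩ := h5 p ((Nat.coprime_primes hp hq).2 hpq) s hs
  have h3 := (measurePreserving_add_right (mm r) s').quasiMeasurePreserving.ae h2
  have h7 : ∀ᵐ z ∂(mm r), j • D s (x₀ + p • z) = q • (w (x₀ + p • z) - w (x₀ + p • z + s)) := by
    filter_upwards [h1 s' hs', h2, h3] with z e1 e2 e3
    rw [hps] at e1
    have e4 : x₀ + p • (z + s') = x₀ + p • z + s := by rw [smul_add, hps, add_assoc]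
    have e5 : x₀ + q • (z + s') = x₀ + q • z := by rw [smul_add, (h6 s').1 hs', add_zero]
    rw [e1, e4, e5, smul_add, e2] at e3
    rw [← sub_eq_zero] at e3 ⊢
    rw [← e3, smul_sub]
    abel
  have h8 : MeasurableSet {x : T r | j • D s x = q • (w x - w (x + s))} :=
    measurableSet_eq_fun (zsmul_meas (hD s hs) j)
      (nsmul_meas (hw.sub (hw.comp (measurable_add_const s))) q)
  have h9 := (mpz r p hp.one_le).1 x₀
  rw [← h9.map_eq]
  exact (ae_map_iff h9.aemeasurable h8).2 h7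

/-! ### functions with finitely many Fourier coefficients -/

/-- the bound for one pair of functions -/
def Bd {r : ℕ} (θ : T r) (f : T r → U) (p q : ℕ) (y₀ : T (r + 1)) (t t' : TY r)
    (G G' : T (r + 1) → ℂ) : Prop := ∀ ε : ℝ, 0 < ε → ∀ᶠ M : ℕ in atTop,
  ‖∑ n ∈ Icc 1 M, G ((SA θ f)^[p * n] y₀) * conj (G' ((SA θ f)^[q * n] y₀))‖ ≤
    (‖∫ y, G y ∂(mm (r + 1))‖ * ‖∫ y, G' y ∂(mm (r + 1))‖ +
      Real.sqrt (NT q t G - ‖∫ y, G y ∂(mm (r + 1))‖ ^ 2) *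
      Real.sqrt (NT p t' G' - ‖∫ y, G' y ∂(mm (r + 1))‖ ^ 2) + ε) * M

theorem memLp_cont {R : ℕ} {F : T R → ℂ} (hF : Continuous F) : MemLp F 2 (mm R) :=
  (RI.of_continuous hF).memLp 2

theorem int_tp (fibs : ST_FIB) {A : Finset ℤ} {g : ℤ → T r → ℂ} (hg : ∀ a, Continuous (g a))
    (hg0 : ∀ a, a ∉ A → ∀ x, g a x = 0) :
    ∫ y, tp A g y ∂(mm (r + 1)) = ∫ x, g 0 x ∂(mm r) := by
  rw [((fibs r).2 _ (memLp_cont (tp_cont hg))).2.2.1]
  refine integral_congr_ae (Eventually.of_forall fun x => ?_)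
  exact fib_tp hg0 0 x

theorem fib_tp' {A : Finset ℤ} {g : ℤ → T r → ℂ}
    (hg0 : ∀ a, a ∉ A → ∀ x, g a x = 0) (a : ℤ) : fib (tp A g) a = g a :=
  funext fun x => fib_tp hg0 a x

theorem bd_none (prb : ST_PRB) (jtp : ST_JTP) (fibs : ST_FIB) {θ : T r} {f : T r → U}
    (hθ : Ind θ) (hf : Continuous f) {p q : ℕ} (hp : p.Prime) (hq : q.Prime) (hpq : p ≠ q)
    (y₀ : T (r + 1)) (h0 : ∀ (a b : ℤ) (u : T r → U), Rs θ f p q (ini y₀) a b u → a = 0 ∧ b = 0)
    {A A' : Finset ℤ} {g g' : ℤ → T r → ℂ} (hA : 0 ∈ A) (hA' : 0 ∈ A')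
    (hg : ∀ a, Continuous (g a)) (hg' : ∀ a, Continuous (g' a))
    (hg0 : ∀ a, a ∉ A → ∀ x, g a x = 0) (hg0' : ∀ a, a ∉ A' → ∀ x, g' a x = 0) :
    Bd θ f p q y₀ none none (tp A g) (tp A' g') := by
  intro ε hε
  have h1 := jtp r θ f hθ hf p q y₀ A A' g g' {(0, 0)} (fun _ _ _ => 0) hp.one_le hq.one_le
    hg hg' (by
      intro c hc
      rw [Finset.mem_singleton] at hc
      rw [hc]
      exact Finset.mem_product.2 ⟨hA, hA'⟩) (by
      intro c hc
      rw [Finset.mem_singleton] at hc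
      rw [hc]
      exact ⟨measurable_const, Eventually.of_forall fun z => by simp⟩) (by
      intro c hc hc2 u hu
      apply hc2
      rw [Finset.mem_singleton]
      obtain ⟨e1, e2⟩ := h0 _ _ _ hu
      exact Prod.ext e1 e2) ε hε
  filter_upwards [h1] with M hM
  refine hM.trans (mul_le_mul_of_nonneg_right ?_ (Nat.cast_nonneg M))
  rw [Finset.sum_singleton]
  simp only [fourier_zero', map_zero, one_mul, int_tp fibs hg hg0, int_tp fibs hg' hg0', NT,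
    fib_tp' hg0, fib_tp' hg0']
  have h2 := (prb r p q (ini y₀) (g 0) (g' 0) hp hq hpq (memLp_cont (hg 0))
    (memLp_cont (hg' 0))).2
  have h3 : ∀ z : T r, (fourier 1 (0 : U) : ℂ) = 1 := fun _ => by simp
  simp only [h3 0, one_mul]
  linarith

theorem four_zsmul (j : ℤ) (x : U) : (fourier 1 (j • x) : ℂ) = fourier j x := by
  rw [fourier_apply, fourier_apply, one_smul]

theorem bd_some (prj : ST_PRJ) (prb : ST_PRB) (jtp : ST_JTP) (fibs : ST_FIB) (ntf : ST_NTF)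
    {θ : T r} {f : T r → U}
    (hθ : Ind θ) (hf : Continuous f) {p q : ℕ} (hp : p.Prime) (hq : q.Prime) (hpq : p ≠ q)
    (y₀ : T (r + 1)) {a₀ b₀ : ℤ} {u₀ : T r → U} {D D' : T r → T r → U} (ha : a₀ ≠ 0)
    (hb : b₀ ≠ 0) (hu : Rs θ f p q (ini y₀) a₀ b₀ u₀)
    (h0 : ∀ (a b : ℤ) (u : T r → U), Rs θ f p q (ini y₀) a b u → ∃ j : ℤ, a = j * a₀ ∧ b = j * b₀)
    (hD : Lift θ f q a₀ D) (hD' : Lift θ f p b₀ D')
    (h1 : ∀ s ∈ tor r q, ∀ᵐ z ∂(mm r), u₀ (z + s) = D (p • s) (ini y₀ + p • z) + u₀ z)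
    (h2 : ∀ s ∈ tor r p, ∀ᵐ z ∂(mm r), -u₀ (z + s) = D' (q • s) (ini y₀ + q • z) + -u₀ z)
    {A A' : Finset ℤ} {g g' : ℤ → T r → ℂ} (hA : 0 ∈ A) (hA' : 0 ∈ A')
    (hg : ∀ a, Continuous (g a)) (hg' : ∀ a, Continuous (g' a))
    (hg0 : ∀ a, a ∉ A → ∀ x, g a x = 0) (hg0' : ∀ a, a ∉ A' → ∀ x, g' a x = 0) :
    Bd θ f p q y₀ (some (a₀, D)) (some (b₀, D')) (tp A g) (tp A' g') := by
  intro ε hε
  obtain ⟨J, hJ⟩ : ∃ J : Finset ℤ, ∀ j, j ∈ J ↔ j * a₀ ∈ A ∧ j * b₀ ∈ A' := by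
    refine ⟨(A.image fun a => a / a₀).filter fun j => j * a₀ ∈ A ∧ j * b₀ ∈ A', fun j => ?_⟩
    rw [Finset.mem_filter, and_iff_right_iff_imp]
    rintro ⟨e1, -⟩
    exact Finset.mem_image.2 ⟨_, e1, Int.mul_ediv_cancel _ ha⟩
  have hinj : ∀ j ∈ J, ∀ j' ∈ J, (fun j : ℤ => (j * a₀, j * b₀)) j =
      (fun j : ℤ => (j * a₀, j * b₀)) j' → j = j' := by
    intro j _ j' _ e
    exact mul_right_cancel₀ ha (Prod.ext_iff.1 e).1
  have h3 := jtp r θ f hθ hf p q y₀ A A' g g' (J.image fun j => (j * a₀, j * b₀))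
    (fun a _ z => (a / a₀) • u₀ z) hp.one_le hq.one_le hg hg' (by
      intro c hc
      obtain ⟨j, hj, e⟩ := Finset.mem_image.1 hc
      rw [← e]
      exact Finset.mem_product.2 ((hJ j).1 hj)) (by
      intro c hc
      obtain ⟨j, hj, e⟩ := Finset.mem_image.1 hc
      rw [← e]
      simp only [Int.mul_ediv_cancel _ ha]
      exact Rs_zsmul hu j) (by
      intro c hc hc2 u hu2
      apply hc2
      obtain ⟨j, e1, e2⟩ := h0 _ _ _ hu2
      rw [Finset.mem_product] at hc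
      refine Finset.mem_image.2 ⟨j, (hJ j).2 ⟨?_, ?_⟩, Prod.ext e1.symm e2.symm⟩
      · rw [← e1]; exact hc.1
      · rw [← e2]; exact hc.2) ε hε
  filter_upwards [h3] with M hM
  refine hM.trans (mul_le_mul_of_nonneg_right ?_ (Nat.cast_nonneg M))
  rw [Finset.sum_image hinj]
  simp only [Int.mul_ediv_cancel _ ha, four_zsmul]
  simp only [int_tp fibs hg hg0, int_tp fibs hg' hg0', NT, fib_tp' hg0, fib_tp' hg0']
  -- the masses
  obtain ⟨I, hI⟩ : ∃ I : ℝ, I = ‖∫ x, g 0 x ∂(mm r)‖ := ⟨_, rfl⟩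
  obtain ⟨I', hI'⟩ : ∃ I : ℝ, I = ‖∫ x, g' 0 x ∂(mm r)‖ := ⟨_, rfl⟩
  rw [← hI, ← hI']
  obtain ⟨p1, p2⟩ := prb r p q (ini y₀) (g 0) (g' 0) hp hq hpq (memLp_cont (hg 0))
    (memLp_cont (hg' 0))
  have p3 := (prb r q p (ini y₀) (g' 0) (g 0) hq hp hpq.symm (memLp_cont (hg' 0))
    (memLp_cont (hg 0))).1
  rw [← hI, ← hI'] at p2
  rw [← hI] at p1
  rw [← hI'] at p3
  have h0J : (0 : ℤ) ∈ J := (hJ 0).2 (by simpa using ⟨hA, hA'⟩)
  have s1 : Summable fun j : ℤ => ms q D j (g (j * a₀)) := by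
    have := (ntf r θ f q (some (a₀, D)) (tp A g) (tp A g) hq.one_le hf.measurable ⟨ha, hD⟩
      (memLp_cont (tp_cont hg)) (memLp_cont (tp_cont hg))).2.2.1 _ rfl
    simpa only [fib_tp' hg0] using this
  have s2 : Summable fun j : ℤ => ms p D' j (g' (j * b₀)) := by
    have := (ntf r θ f p (some (b₀, D')) (tp A' g') (tp A' g') hp.one_le hf.measurable ⟨hb, hD'⟩
      (memLp_cont (tp_cont hg')) (memLp_cont (tp_cont hg'))).2.2.1 _ rfl
    simpa only [fib_tp' hg0'] using this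
  obtain ⟨X, hX⟩ : ∃ X : ℤ → ℝ, X = fun j => ms q D j (g (j * a₀)) - if j = 0 then I ^ 2 else 0 :=
    ⟨_, rfl⟩
  obtain ⟨X', hX'⟩ : ∃ X : ℤ → ℝ, X = fun j => ms p D' j (g' (j * b₀)) -
    if j = 0 then I' ^ 2 else 0 := ⟨_, rfl⟩
  have x1 : ∀ j, 0 ≤ X j := by
    intro j
    rw [hX]
    by_cases hj : j = 0
    · subst hj
      simp only [if_true, zero_mul]
      rw [ms_zero]
      linarith
    · simp only [if_neg hj, sub_zero]
      exact ms_nonneg _ _ _ _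
  have x2 : ∀ j, 0 ≤ X' j := by
    intro j
    rw [hX']
    by_cases hj : j = 0
    · subst hj
      simp only [if_true, zero_mul]
      rw [ms_zero]
      linarith
    · simp only [if_neg hj, sub_zero]
      exact ms_nonneg _ _ _ _
  have x3 : ∑ j ∈ J, X j ≤ ∑' j : ℤ, ms q D j (g (j * a₀)) - I ^ 2 := by
    rw [hX, Finset.sum_sub_distrib, Finset.sum_ite_eq' J 0, if_pos h0J]
    exact sub_le_sub_right (s1.sum_le_tsum J fun j _ => ms_nonneg _ _ _ _) _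
  have x4 : ∑ j ∈ J, X' j ≤ ∑' j : ℤ, ms p D' j (g' (j * b₀)) - I' ^ 2 := by
    rw [hX', Finset.sum_sub_distrib, Finset.sum_ite_eq' J 0, if_pos h0J]
    exact sub_le_sub_right (s2.sum_le_tsum J fun j _ => ms_nonneg _ _ _ _) _
  have x5 : ∀ j ∈ J, ‖∫ z, fourier j (u₀ z) * (g (j * a₀) (ini y₀ + p • z) *
      conj (g' (j * b₀) (ini y₀ + q • z))) ∂(mm r)‖ ≤
      (if j = 0 then I * I' else 0) + Real.sqrt (X j) * Real.sqrt (X' j) := by
    intro j _
    by_cases hj : j = 0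
    · subst hj
      rw [hX, hX']
      simp only [if_true, zero_mul, fourier_zero, one_mul, ms_zero]
      exact p2
    · rw [hX, hX']
      simp only [if_neg hj, sub_zero, zero_add]
      exact prj r p q (ini y₀) u₀ D D' j _ _ hp hq hpq hu.1 hD.1 h1 hD'.1 h2
        (memLp_cont (hg _)) (memLp_cont (hg' _))
  have x6 := Finset.sum_le_sum x5
  rw [Finset.sum_add_distrib, Finset.sum_ite_eq' J 0, if_pos h0J] at x6
  have x7 : ∑ j ∈ J, Real.sqrt (X j) * Real.sqrt (X' j) ≤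
      Real.sqrt (∑' j : ℤ, ms q D j (g (j * a₀)) - I ^ 2) *
      Real.sqrt (∑' j : ℤ, ms p D' j (g' (j * b₀)) - I' ^ 2) := by
    refine (Real.sum_sqrt_mul_sqrt_le J x1 x2).trans ?_
    exact mul_le_mul (Real.sqrt_le_sqrt x3) (Real.sqrt_le_sqrt x4) (Real.sqrt_nonneg _)
      (Real.sqrt_nonneg _)
  linarith

/-! ### Riemann integrable functions -/

theorem avg_small (eqr : ST_EQR) {R : ℕ} {S : T R → T R} (hE : EQ S (mm R)) {ρ : T R → ℝ}
    (hρ : Continuous ρ) {p : ℕ} (hp : 1 ≤ p) (x : T R) {a b : ℝ} (ha : ∫ y, ρ y ∂(mm R) ≤ a)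
    (h0 : ∀ y, 0 ≤ ρ y) (hab : a < b) :
    ∀ᶠ M : ℕ in atTop, ∑ n ∈ Icc 1 M, ρ (S^[p * n] x) ≤ b * M := by
  have h1 := (eqr R S hE (fun y => (ρ y : ℂ))
    (RI.of_continuous (Complex.continuous_ofReal.comp hρ)) p x hp).2
  have h2 : ‖∫ y, (ρ y : ℂ) ∂(mm R)‖ < b := by
    rw [integral_complex_ofReal, Complex.norm_real, Real.norm_of_nonneg (integral_nonneg h0)]
    linarith
  filter_upwards [h1.norm.eventually (gt_mem_nhds h2), eventually_gt_atTop 0] with M hM hM0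
  have hM1 : (0 : ℝ) < M := by exact_mod_cast hM0
  rw [norm_div, Complex.norm_natCast, div_lt_iff₀ hM1, ← Complex.ofReal_sum, Complex.norm_real,
    Real.norm_of_nonneg (Finset.sum_nonneg fun _ _ => h0 _)] at hM
  exact hM.le

theorem ri_eta (I I' V V' c C ε : ℝ) (hε : 0 < ε) : ∃ s : ℝ, 0 < s ∧ s ≤ 1 ∧
    (I + 2 * s ^ 2) * (I' + 2 * s ^ 2) + (V + c * s) * (V' + c * s) + s +
      (C * (3 * s ^ 2) + (3 * C + 1) * (3 * s ^ 2)) ≤ I * I' + V * V' + ε := by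
  obtain ⟨Φ, hΦ⟩ : ∃ Φ : ℝ → ℝ, Φ = fun s =>
    (I + 2 * s ^ 2) * (I' + 2 * s ^ 2) + (V + c * s) * (V' + c * s) + s +
      (C * (3 * s ^ 2) + (3 * C + 1) * (3 * s ^ 2)) := ⟨_, rfl⟩
  have h1 : Continuous Φ := by rw [hΦ]; fun_prop
  have h2 : Φ 0 = I * I' + V * V' := by rw [hΦ]; ring
  have h3 : ∀ᶠ s in 𝓝 (0 : ℝ), Φ s < I * I' + V * V' + ε := by
    have := h1.continuousAt (x := 0)
    unfold ContinuousAt at this
    rw [h2] at this
    exact this.eventually (gt_mem_nhds (by linarith))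
  have h4 : ∀ᶠ s in 𝓝[>] (0 : ℝ), Φ s < I * I' + V * V' + ε ∧ s ∈ Set.Ioc (0 : ℝ) 1 :=
    (h3.filter_mono nhdsWithin_le_nhds).and (Ioc_mem_nhdsGT one_pos)
  obtain ⟨s, h5, h6⟩ := h4.exists
  refine ⟨s, h6.1, h6.2, ?_⟩
  rw [hΦ] at h5
  exact h5.le

/-- the effect of an approximation on the mean and on the mass -/
theorem ap_one (ntf : ST_NTF) {θ : T r} {f : T r → U} (hf : Continuous f) {q : ℕ} (hq : 1 ≤ q)
    {t : TY r} (ht : OK θ f q t) {G P : T (r + 1) → ℂ} {R : T (r + 1) → ℝ} (hG : RI G)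
    (hP : Continuous P) (hR : Continuous R) {C s c : ℝ} (hC0 : 0 ≤ C) (hs : 0 ≤ s) (hc : 0 ≤ c)
    (hc2 : c ^ 2 = 2 * (2 * C + 1)) (b1 : ∀ x, ‖G x - P x‖ ≤ R x) (b2 : ∀ x, R x ≤ 2 * C + 1)
    (b3 : ∫ x, R x ∂(mm (r + 1)) ≤ 2 * s ^ 2) :
    ‖∫ y, P y ∂(mm (r + 1))‖ ≤ ‖∫ y, G y ∂(mm (r + 1))‖ + 2 * s ^ 2 ∧
    Real.sqrt (NT q t P - ‖∫ y, P y ∂(mm (r + 1))‖ ^ 2) ≤
      Real.sqrt (NT q t G - ‖∫ y, G y ∂(mm (r + 1))‖ ^ 2) + c * s := by
  have hPR : RI P := RI.of_continuous hP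
  have hR0 : ∀ x, 0 ≤ R x := fun x => (norm_nonneg _).trans (b1 x)
  have iR : Integrable R (mm (r + 1)) := (RI.of_continuous hR).integrable
  have iR2 : Integrable (fun x => R x ^ 2) (mm (r + 1)) :=
    (RI.of_continuous (hR.pow 2)).integrable
  refine ⟨?_, ?_⟩
  · have e1 : ∫ y, P y ∂(mm (r + 1)) = ∫ y, G y ∂(mm (r + 1)) -
        ∫ y, (G y - P y) ∂(mm (r + 1)) := by
      rw [integral_sub hG.integrable hPR.integrable]
      ring
    rw [e1]
    refine (norm_sub_le _ _).trans (add_le_add le_rfl ?_)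
    exact (norm_integral_le_of_norm_le iR (Eventually.of_forall b1)).trans b3
  · refine ((ntf r θ f q t P G hq hf.measurable ht (hPR.memLp 2) (hG.memLp 2)).2.2.2.2).trans
      (add_le_add le_rfl ?_)
    refine Real.sqrt_le_iff.2 ⟨by positivity, ?_⟩
    have g6 : Integrable (fun x => ‖P x - G x‖ ^ 2) (mm (r + 1)) :=
      ((hPR.sub hG).norm.cont_comp (g := fun t : ℝ => t ^ 2) (continuous_pow 2)).integrable
    calc ∫ θ, ‖P θ - G θ‖ ^ 2 ∂(mm (r + 1)) ≤ ∫ θ, R θ ^ 2 ∂(mm (r + 1)) := by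
          refine integral_mono g6 iR2 fun x => ?_
          refine pow_le_pow_left₀ (norm_nonneg _) ?_ 2
          rw [norm_sub_rev]
          exact b1 x
      _ ≤ ∫ x, (2 * C + 1) * R x ∂(mm (r + 1)) := by
          refine integral_mono iR2 (iR.const_mul _) fun x => ?_
          have := b2 x
          have := hR0 x
          show R x ^ 2 ≤ (2 * C + 1) * R x
          nlinarith
      _ = (2 * C + 1) * ∫ x, R x ∂(mm (r + 1)) := integral_const_mul _ _
      _ ≤ (2 * C + 1) * (2 * s ^ 2) := mul_le_mul_of_nonneg_left b3 (by linarith)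
      _ = (c * s) ^ 2 := by rw [mul_pow, hc2]; ring

/-- from functions with finitely many Fourier coefficients to Riemann integrable functions -/
theorem bd_ri (eqr : ST_EQR) (ntf : ST_NTF) {θ : T r} {f : T r → U} (hf : Continuous f)
    (hE : EQ (SA θ f) (mm (r + 1))) {p q : ℕ} (hp : 1 ≤ p) (hq : 1 ≤ q) (y₀ : T (r + 1))
    {t t' : TY r} (ht : OK θ f q t) (ht' : OK θ f p t')
    (hb : ∀ (A A' : Finset ℤ) (g g' : ℤ → T r → ℂ), 0 ∈ A → 0 ∈ A' → (∀ a, Continuous (g a)) →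
      (∀ a, Continuous (g' a)) → (∀ a, a ∉ A → ∀ x, g a x = 0) →
      (∀ a, a ∉ A' → ∀ x, g' a x = 0) → Bd θ f p q y₀ t t' (tp A g) (tp A' g'))
    {G G' : T (r + 1) → ℂ} (hG : RI G) (hG' : RI G') : Bd θ f p q y₀ t t' G G' := by
  intro ε hε
  obtain ⟨C, hC, hC'⟩ : ∃ C : ℝ, (∀ x, ‖G x‖ ≤ C) ∧ ∀ x, ‖G' x‖ ≤ C := by
    obtain ⟨C₁, h1⟩ := hG.2
    obtain ⟨C₂, h2⟩ := hG'.2
    exact ⟨max C₁ C₂, fun x => (h1 x).trans (le_max_left _ _),
      fun x => (h2 x).trans (le_max_right _ _)⟩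
  have hC0 : 0 ≤ C := (norm_nonneg _).trans (hC 0)
  obtain ⟨I, hI⟩ : ∃ I : ℝ, I = ‖∫ x, G x ∂(mm (r + 1))‖ := ⟨_, rfl⟩
  obtain ⟨I', hI'⟩ : ∃ I : ℝ, I = ‖∫ x, G' x ∂(mm (r + 1))‖ := ⟨_, rfl⟩
  obtain ⟨V, hV⟩ : ∃ V : ℝ, V = Real.sqrt (NT q t G - I ^ 2) := ⟨_, rfl⟩
  obtain ⟨V', hV'⟩ : ∃ V : ℝ, V = Real.sqrt (NT p t' G' - I' ^ 2) := ⟨_, rfl⟩
  have hV0 : 0 ≤ V := hV ▸ Real.sqrt_nonneg _
  have hV0' : 0 ≤ V' := hV' ▸ Real.sqrt_nonneg _
  have hI0 : 0 ≤ I := hI ▸ norm_nonneg _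
  have hI0' : 0 ≤ I' := hI' ▸ norm_nonneg _
  obtain ⟨c, hc⟩ : ∃ c : ℝ, c = Real.sqrt (2 * (2 * C + 1)) := ⟨_, rfl⟩
  have hc0 : 0 ≤ c := hc ▸ Real.sqrt_nonneg _
  have hc2 : c ^ 2 = 2 * (2 * C + 1) := by rw [hc, Real.sq_sqrt (by positivity)]
  obtain ⟨s, hs0, hs1, hs⟩ := ri_eta I I' V V' c C ε hε
  have hs2 : s ^ 2 ≤ 1 := pow_le_one₀ hs0.le hs1
  obtain ⟨cG, R, hR, b1, b2, b3⟩ := par_apx Pool.Agent.Helper95.DZ.st_RIS hG hC
    (δ := s ^ 2) (by positivity) hs2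
  obtain ⟨cG', R', hR', b1', b2', b3'⟩ := par_apx Pool.Agent.Helper95.DZ.st_RIS hG' hC'
    (δ := s ^ 2) (by positivity) hs2
  obtain ⟨A, g, hA, hg, hg0, hgt⟩ := tp_of cG
  obtain ⟨A', g', hA', hg', hg0', hgt'⟩ := tp_of cG'
  simp only [hgt] at b1
  simp only [hgt'] at b1'
  have hR0 : ∀ x, 0 ≤ R x := fun x => (norm_nonneg _).trans (b1 x)
  have hR0' : ∀ x, 0 ≤ R' x := fun x => (norm_nonneg _).trans (b1' x)
  obtain ⟨k1, k2⟩ := ap_one ntf hf hq ht hG (tp_cont hg) hR hC0 hs0.le hc0 hc2 b1 b2 b3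
  obtain ⟨k1', k2'⟩ := ap_one ntf hf hp ht' hG' (tp_cont hg') hR' hC0 hs0.le hc0 hc2 b1' b2' b3'
  rw [← hI] at k1 k2
  rw [← hI'] at k1' k2'
  rw [← hV] at k2
  rw [← hV'] at k2'
  have hs3 : 2 * s ^ 2 < 3 * s ^ 2 := by have : 0 < s ^ 2 := by positivity
                                         linarith
  have m1 := avg_small eqr hE hR hp y₀ b3 hR0 hs3
  have m2 := avg_small eqr hE hR' hq y₀ b3' hR0' hs3
  have m3 := hb A A' g g' hA hA' hg hg' hg0 hg0' s hs0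
  have pb : ∀ x, ‖tp A g x‖ ≤ 3 * C + 1 := by
    intro x
    calc ‖tp A g x‖ = ‖G x - (G x - tp A g x)‖ := by congr 1; ring
      _ ≤ ‖G x‖ + ‖G x - tp A g x‖ := norm_sub_le _ _
      _ ≤ _ := by
        have := b1 x
        have := b2 x
        have := hC x
        linarith
  filter_upwards [m1, m2, m3] with M n1 n2 n3
  have hM0 : (0 : ℝ) ≤ M := Nat.cast_nonneg M
  have e1 : ∑ n ∈ Icc 1 M, G ((SA θ f)^[p * n] y₀) * conj (G' ((SA θ f)^[q * n] y₀)) =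
      ∑ n ∈ Icc 1 M, tp A g ((SA θ f)^[p * n] y₀) * conj (tp A' g' ((SA θ f)^[q * n] y₀)) +
      ∑ n ∈ Icc 1 M, ((G ((SA θ f)^[p * n] y₀) - tp A g ((SA θ f)^[p * n] y₀)) *
        conj (G' ((SA θ f)^[q * n] y₀)) + tp A g ((SA θ f)^[p * n] y₀) *
        conj (G' ((SA θ f)^[q * n] y₀) - tp A' g' ((SA θ f)^[q * n] y₀))) := by
    rw [← Finset.sum_add_distrib]
    refine Finset.sum_congr rfl fun n _ => ?_
    rw [map_sub]
    ring
  have e2 : ‖∑ n ∈ Icc 1 M, ((G ((SA θ f)^[p * n] y₀) - tp A g ((SA θ f)^[p * n] y₀)) *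
        conj (G' ((SA θ f)^[q * n] y₀)) + tp A g ((SA θ f)^[p * n] y₀) *
        conj (G' ((SA θ f)^[q * n] y₀) - tp A' g' ((SA θ f)^[q * n] y₀)))‖ ≤
      (C * (3 * s ^ 2) + (3 * C + 1) * (3 * s ^ 2)) * M := by
    refine (norm_sum_le _ _).trans ?_
    calc _ ≤ ∑ n ∈ Icc 1 M, (C * R ((SA θ f)^[p * n] y₀) +
          (3 * C + 1) * R' ((SA θ f)^[q * n] y₀)) := by
          refine Finset.sum_le_sum fun n _ => ?_
          refine (norm_add_le _ _).trans (add_le_add ?_ ?_)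
          · rw [norm_mul, RCLike.norm_conj, mul_comm]
            exact mul_le_mul (hC' _) (b1 _) (norm_nonneg _) hC0
          · rw [norm_mul, RCLike.norm_conj]
            exact mul_le_mul (pb _) (b1' _) (norm_nonneg _) (by linarith)
      _ = C * ∑ n ∈ Icc 1 M, R ((SA θ f)^[p * n] y₀) +
          (3 * C + 1) * ∑ n ∈ Icc 1 M, R' ((SA θ f)^[q * n] y₀) := by
          rw [Finset.sum_add_distrib, Finset.mul_sum, Finset.mul_sum]
      _ ≤ C * (3 * s ^ 2 * M) + (3 * C + 1) * (3 * s ^ 2 * M) :=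
          add_le_add (mul_le_mul_of_nonneg_left n1 hC0)
            (mul_le_mul_of_nonneg_left n2 (by linarith))
      _ = _ := by ring
  have e3 : ‖∫ y, tp A g y ∂(mm (r + 1))‖ * ‖∫ y, tp A' g' y ∂(mm (r + 1))‖ +
      Real.sqrt (NT q t (tp A g) - ‖∫ y, tp A g y ∂(mm (r + 1))‖ ^ 2) *
      Real.sqrt (NT p t' (tp A' g') - ‖∫ y, tp A' g' y ∂(mm (r + 1))‖ ^ 2) + s ≤
      (I + 2 * s ^ 2) * (I' + 2 * s ^ 2) + (V + c * s) * (V' + c * s) + s := by
    refine add_le_add (add_le_add ?_ ?_) le_rfl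
    · exact mul_le_mul k1 k1' (norm_nonneg _) (by positivity)
    · exact mul_le_mul k2 k2' (Real.sqrt_nonneg _) (by positivity)
  rw [← hI, ← hI', ← hV, ← hV', e1]
  calc _ ≤ _ := norm_add_le _ _
    _ ≤ ((I + 2 * s ^ 2) * (I' + 2 * s ^ 2) + (V + c * s) * (V' + c * s) + s) * M +
        (C * (3 * s ^ 2) + (3 * C + 1) * (3 * s ^ 2)) * M :=
        add_le_add (n3.trans (mul_le_mul_of_nonneg_right e3 hM0)) e2
    _ ≤ _ := by
        rw [← add_mul]
        exact mul_le_mul_of_nonneg_right hs hM0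

end Pool.Agent.Helper2.JZ

namespace Pool.Agent.Helper40.JZ

open Pool.Agent.Helper16.AZ (T E Op mm fc Ind)
open Pool.Agent.Helper16.BZ (EQ)
open Pool.Agent.Helper40.DZ (RI UR SK Good3 ST_EQR)
open Pool.Agent.Helper2.JZ

theorem st_RES (rcy : ST_RCY) (lfr : ST_LFR) (prj : ST_PRJ) (prb : ST_PRB) (jtp : ST_JTP)
    (fibs : ST_FIB) (ntf : ST_NTF) (eqa : ST_EQA) (eqr : ST_EQR) (erg : ST_ERG) (mpz : ST_MPZ)
    (tor0 : ST_TOR) : ST_RES := by
  intro r θ f hθ hf hN p q y₀ hp hq hpq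
  have hE := eqa r θ f hθ hf hN
  rcases rcy r θ f hθ hf hN p q (ini y₀) hp hq hpq with h0 | ⟨a₀, b₀, u₀, ha, hb, hu, h0⟩
  · refine ⟨none, none, trivial, trivial, fun _ _ _ => ⟨trivial, trivial⟩,
      fun G G' hG hG' => ?_⟩
    exact bd_ri eqr ntf hf hE hp.one_le hq.one_le y₀ (t := none) (t' := none) trivial trivial
      (fun A A' g g' hA hA' hg hg' hg0 hg0' =>
        bd_none prb jtp fibs hθ hf hp hq hpq y₀ h0 hA hA' hg hg' hg0 hg0') hG hG'
  · obtain ⟨D, hD, h1⟩ := lfr r θ f hθ hf p q (ini y₀) a₀ b₀ u₀ hp hq hpq hu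
    obtain ⟨D', hD', h2⟩ := lfr r θ f hθ hf q p (ini y₀) b₀ a₀ (fun z => -u₀ z) hq hp hpq.symm
      (Rs_symm hu)
    refine ⟨some (a₀, D), some (b₀, D'), ⟨ha, hD⟩, ⟨hb, hD'⟩, ?_, fun G G' hG hG' => ?_⟩
    · intro A w hw
      have g1 := qc_res mpz hw hp.one_le hq.one_le (ini y₀)
      obtain ⟨j, e1, e2⟩ := h0 _ _ _ g1
      obtain ⟨u, hu1⟩ : ∃ u : T r → U, u = fun z => -(q • w (ini y₀ + p • z)) +
        p • w (ini y₀ + q • z) := ⟨_, rfl⟩
      rw [← hu1] at g1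
      have g2 := (Rs_zsmul hu j).2
      rw [← e1, ← e2] at g2
      obtain ⟨κ, hκ⟩ := (erg r θ hθ).2.1 (fun z => j • u₀ z - u z)
        ((zsmul_meas hu.1 j).sub g1.1) (by
          filter_upwards [g1.2, g2] with z k1 k2
          have k3 := congrArg₂ (fun v v' : U => v - v') k2 k1
          simp only [add_sub_add_right_eq_sub, add_sub_add_left_eq_sub] at k3
          exact k3)
      have hjA : j ∣ A := by
        have hco : IsCoprime (p : ℤ) (q : ℤ) :=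
          Nat.isCoprime_iff_coprime.2 ((Nat.coprime_primes hp hq).2 hpq)
        obtain ⟨α, β, hαβ⟩ := hco
        refine ⟨α * b₀ + β * a₀, ?_⟩
        calc A = α * (A * p) + β * (A * q) := by linear_combination (-A) * hαβ
          _ = _ := by rw [e1, e2]; ring
      refine ⟨⟨j, hjA, e1.symm, ?_⟩, ⟨j, hjA, e2.symm, ?_⟩⟩
      · refine cn_side tor0 mpz hp hq hpq (ini y₀) hw.2.1 hD.1 h1 (κ := κ) ?_
        filter_upwards [hκ] with z hz
        rw [hu1] at hz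
        rw [← hz]
        exact (sub_add_cancel _ _).symm
      · refine cn_side tor0 mpz hq hp hpq.symm (u₀ := fun z => -u₀ z) (ini y₀) hw.2.1 hD'.1 h2
          (κ := -κ) ?_
        filter_upwards [hκ] with z hz
        simp only [hu1] at hz
        rw [← hz, smul_neg]
        abel
    · exact bd_ri eqr ntf hf hE hp.one_le hq.one_le y₀ (t := some (a₀, D)) (t' := some (b₀, D'))
        ⟨ha, hD⟩ ⟨hb, hD'⟩ (fun A A' g g' hA hA' hg hg' hg0 hg0' =>
          bd_some prj prb jtp fibs ntf hθ hf hp hq hpq y₀ ha hb hu h0 hD hD' h1 h2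
            hA hA' hg hg' hg0 hg0') hG hG'

end Pool.Agent.Helper40.JZ
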